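import Pool.Agent.Helper919_SDT.Part2

set_option autoImplicit false

/-!
# Special Aronszajn trees without stationarity-detecting trees, under the continuum hypothesis

There is a forcing notion which adds no new sequences of length `ω` and forces the continuum hypothesis, that every
Aronszajn tree is special, and that there is no stationarity-detecting tree.
-/

namespace Pool.Agent.Results.MP_3f589b_lc.NoDetectingTree

open Pool.Agent.Helper919.SD

theorem result : ∃ (P : Type 1) (_ : Preorder P), Nonempty P ∧ NoNewSeq P ∧
    ∀ p : P, p ∈ CH ∧ p ∈ SATH ∧ p ∈ NoSDTree := main

end Pool.Agent.Results.MP_3f589b_lc.NoDetectingTree
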